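import Mathlib

/-!
# Symplectic bases and sums over pairings of the values of an alternating map
-/

set_option autoImplicit false

namespace Pool.Agent.Q250.OD

open Module

section Symp

variable {K V : Type*} [Field K] [AddCommGroup V] [Module K V]

/-- `g` hyperbolic pairs `b i 0`, `b i 1`, orthogonal to each other. -/
structure Pairs (B : V →ₗ[K] V →ₗ[K] K) (g : ℕ) (b : Fin g → Fin 2 → V) : Prop where
  zero : ∀ i j, B (b i 0) (b j 0) = 0
  one : ∀ i j, B (b i 1) (b j 1) = 0
  mix : ∀ i j, B (b i 0) (b j 1) = if i = j then 1 else 0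

variable {B : V →ₗ[K] V →ₗ[K] K}

lemma skew (hB : ∀ x, B x x = 0) (x y : V) : B x y = -B y x := by
  have h := hB (x + y)
  rw [map_add, map_add, LinearMap.add_apply, LinearMap.add_apply, hB, hB, zero_add, add_zero] at h
  exact eq_neg_of_add_eq_zero_right h

/-- the part orthogonal to the pairs -/
noncomputable def orth (B : V →ₗ[K] V →ₗ[K] K) {g : ℕ} (b : Fin g → Fin 2 → V) (v : V) : V :=
  v - ∑ i, B v (b i 1) • b i 0 + ∑ i, B v (b i 0) • b i 1

lemma orth_one {g : ℕ} {b : Fin g → Fin 2 → V} (h : Pairs B g b) (v : V) (j : Fin g) :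
    B (orth B b v) (b j 1) = 0 := by
  simp only [orth, map_add, map_sub, map_sum, LinearMap.add_apply, LinearMap.sub_apply,
    LinearMap.sum_apply, map_smul, LinearMap.smul_apply, h.mix, h.one, smul_eq_mul, mul_ite,
    mul_one, mul_zero, Finset.sum_ite_eq', Finset.mem_univ, if_true, Finset.sum_const_zero,
    sub_self, add_zero]

lemma orth_zero (hB : ∀ x, B x x = 0) {g : ℕ} {b : Fin g → Fin 2 → V} (h : Pairs B g b) (v : V)
    (j : Fin g) : B (orth B b v) (b j 0) = 0 := by
  have h1 : ∀ i, B (b i 1) (b j 0) = if i = j then -1 else 0 := by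
    intro i
    rw [skew hB, h.mix]
    by_cases hij : i = j
    · rw [if_pos hij, if_pos hij.symm]
    · rw [if_neg hij, if_neg (Ne.symm hij), neg_zero]
  simp only [orth, map_add, map_sub, map_sum, LinearMap.add_apply, LinearMap.sub_apply,
    LinearMap.sum_apply, map_smul, LinearMap.smul_apply, h1, h.zero, smul_eq_mul, mul_ite,
    mul_neg, mul_one, mul_zero, Finset.sum_ite_eq', Finset.mem_univ, if_true,
    Finset.sum_const_zero, sub_zero, add_neg_cancel]

lemma pair_orth (hB : ∀ x, B x x = 0) {g : ℕ} {b : Fin g → Fin 2 → V} (h : Pairs B g b) (v y : V) :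
    B (orth B b v) (orth B b y) = B (orth B b v) y := by
  conv_lhs => rw [orth.eq_def B b y]
  simp only [map_add, map_sub, map_sum, map_smul, orth_one h, orth_zero hB h, smul_zero,
    Finset.sum_const_zero, sub_zero, add_zero]

lemma Pairs.indep (hB : ∀ x, B x x = 0) {g : ℕ} {b : Fin g → Fin 2 → V} (h : Pairs B g b) :
    LinearIndependent K fun p : Fin g × Fin 2 => b p.1 p.2 := by
  rw [Fintype.linearIndependent_iff]
  intro c hc
  rw [Fintype.sum_prod_type] at hc
  simp only [Fin.sum_univ_two] at hc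
  have h1 : ∀ i j, B (b i 1) (b j 0) = if i = j then -1 else 0 := by
    intro i j
    rw [skew hB, h.mix]
    by_cases hij : i = j
    · rw [if_pos hij, if_pos hij.symm]
    · rw [if_neg hij, if_neg (Ne.symm hij), neg_zero]
  rintro ⟨j, a⟩
  fin_cases a
  · have h2 := congrArg (fun v => B v (b j 1)) hc
    simpa [map_sum, LinearMap.sum_apply, h.mix, h.one] using h2
  · have h2 := congrArg (fun v => B v (b j 0)) hc
    simpa [map_sum, LinearMap.sum_apply, h1, h.zero] using h2

lemma Pairs.step [FiniteDimensional K V] (hB : ∀ x, B x x = 0)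
    (hnd : ∀ x, (∀ y, B x y = 0) → x = 0) {g : ℕ} {b : Fin g → Fin 2 → V} (h : Pairs B g b)
    (hg : 2 * g < finrank K V) : ∃ b', Pairs B (g + 1) b' := by
  obtain ⟨v, hv⟩ : ∃ v, orth B b v ≠ 0 := by
    by_contra hcon
    push Not at hcon
    have h1 : (⊤ : Submodule K V) ≤ Submodule.span K
        (Set.range fun p : Fin g × Fin 2 => b p.1 p.2) := by
      intro v _
      have h2 : v = ∑ i, B v (b i 1) • b i 0 - ∑ i, B v (b i 0) • b i 1 := by
        have h3 := hcon v
        rw [orth] at h3
        rw [eq_sub_iff_add_eq, ← sub_eq_zero]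
        rw [← h3]
        abel
      rw [h2]
      refine Submodule.sub_mem _ (Submodule.sum_mem _ fun i _ => Submodule.smul_mem _ _
        (Submodule.subset_span ⟨(i, 0), rfl⟩)) (Submodule.sum_mem _ fun i _ =>
          Submodule.smul_mem _ _ (Submodule.subset_span ⟨(i, 1), rfl⟩))
    have h4 := finrank_range_le_card (R := K) (fun p : Fin g × Fin 2 => b p.1 p.2)
    rw [Set.finrank, top_le_iff.1 h1, finrank_top, Fintype.card_prod, Fintype.card_fin,
      Fintype.card_fin] at h4
    omega
  obtain ⟨y, hy⟩ : ∃ y, B (orth B b v) y ≠ 0 := by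
    by_contra hcon
    push Not at hcon
    exact hv (hnd _ hcon)
  set x := orth B b v with hx
  set y' := orth B b ((B x y)⁻¹ • y) with hy'
  have hxy : B x y' = 1 := by
    rw [hx, hy', pair_orth hB h, ← hx, map_smul, smul_eq_mul, inv_mul_cancel₀ hy]
  have x0 : ∀ j, B x (b j 0) = 0 := orth_zero hB h _
  have x1 : ∀ j, B x (b j 1) = 0 := orth_one h _
  have y0 : ∀ j, B y' (b j 0) = 0 := orth_zero hB h _
  have y1 : ∀ j, B y' (b j 1) = 0 := orth_one h _
  have x0' : ∀ j, B (b j 0) x = 0 := fun j => by rw [skew hB, x0, neg_zero]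
  have y1' : ∀ j, B (b j 1) y' = 0 := fun j => by rw [skew hB, y1, neg_zero]
  have y0' : ∀ j, B (b j 0) y' = 0 := fun j => by rw [skew hB, y0, neg_zero]
  refine ⟨Fin.snoc (α := fun _ => Fin 2 → V) b ![x, y'], ?_, ?_, ?_⟩
  · intro i j
    refine Fin.lastCases ?_ (fun i => ?_) i <;> refine Fin.lastCases ?_ (fun j => ?_) j
    · simp [hB]
    · simp [x0]
    · simp [x0']
    · simp [h.zero]
  · intro i j
    refine Fin.lastCases ?_ (fun i => ?_) i <;> refine Fin.lastCases ?_ (fun j => ?_) j
    · simp [hB]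
    · simp [y1]
    · simp [y1']
    · simp [h.one]
  · intro i j
    refine Fin.lastCases ?_ (fun i => ?_) i <;> refine Fin.lastCases ?_ (fun j => ?_) j
    · simp [hxy]
    · simp [x1, (Fin.castSucc_lt_last j).ne']
    · simp [y0', (Fin.castSucc_lt_last i).ne]
    · simp [h.mix]

/-- **Symplectic bases.** -/
theorem exists_symp [FiniteDimensional K V] (hB : ∀ x, B x x = 0)
    (hnd : ∀ x, (∀ y, B x y = 0) → x = 0) :
    ∃ (g : ℕ) (b : Fin g → Fin 2 → V), Pairs B g b ∧ finrank K V = 2 * g := by
  by_contra hcon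
  push Not at hcon
  have h1 : ∀ g, ∃ b : Fin g → Fin 2 → V, Pairs B g b := by
    intro g
    induction g with
    | zero => exact ⟨fun i => i.elim0, ⟨fun i => i.elim0, fun i => i.elim0, fun i => i.elim0⟩⟩
    | succ g ih =>
      obtain ⟨b, hb⟩ := ih
      refine hb.step hB hnd ?_
      have h2 := (hb.indep hB).fintype_card_le_finrank
      rw [Fintype.card_prod, Fintype.card_fin, Fintype.card_fin] at h2
      have h3 := hcon g b hb
      omega
  obtain ⟨b, hb⟩ := h1 (finrank K V + 1)
  have h2 := (hb.indep hB).fintype_card_le_finrank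
  rw [Fintype.card_prod, Fintype.card_fin, Fintype.card_fin] at h2
  omega

end Symp

section Comb

variable {N : ℕ}

/-- `(j, a) ↦ 2 j + a` -/
def rr (N : ℕ) : Fin N × Fin 2 ≃ Fin (2 * N) := finProdFinEquiv.trans (finCongr (mul_comm N 2))

lemma rr_val (N : ℕ) (j : Fin N) (a : Fin 2) : (rr N (j, a) : ℕ) = a + 2 * j := by
  simp [rr, finProdFinEquiv]

variable {K V M : Type*} [Field K] [AddCommGroup V] [Module K V] [AddCommGroup M] [Module K M]

/-- the vectors of the pairs chosen by `φ` -/
def pick (b : Fin N → Fin 2 → V) (φ : Fin N → Fin N × Equiv.Perm (Fin 2)) (m : Fin (2 * N)) : V :=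
  b (φ ((rr N).symm m).1).1 ((φ ((rr N).symm m).1).2 ((rr N).symm m).2)

/-- all vectors in their order -/
def ord (b : Fin N → Fin 2 → V) (m : Fin (2 * N)) : V := b ((rr N).symm m).1 ((rr N).symm m).2

lemma sum_pick (A : V [⋀^Fin (2 * N)]→ₗ[K] M) (b : Fin N → Fin 2 → V) :
    ∃ c : ℕ, c ≠ 0 ∧ ∑ φ : Fin N → Fin N × Equiv.Perm (Fin 2),
      ((∏ j, (Equiv.Perm.sign (φ j).2 : ℤ) : ℤ) : K) • A (pick b φ) = (c : K) • A (ord b) := by
  classical
  refine ⟨(Finset.univ.filter fun φ : Fin N → Fin N × Equiv.Perm (Fin 2) =>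
    Function.Injective fun j => (φ j).1).card, ?_, ?_⟩
  · rw [Finset.card_ne_zero]
    exact ⟨fun j => (j, 1), Finset.mem_filter.2 ⟨Finset.mem_univ _, fun i j h => h⟩⟩
  · rw [Nat.cast_smul_eq_nsmul, ← Finset.sum_const, Finset.sum_filter]
    refine Finset.sum_congr rfl fun φ _ => ?_
    set y : Fin (2 * N) → V := fun m => b (φ ((rr N).symm m).1).1 ((rr N).symm m).2 with hy
    have h1 : pick b φ = y ∘ ((rr N).permCongr (Equiv.prodCongrRight fun j => (φ j).2)) := by
      funext m
      rw [Function.comp_apply, hy, Equiv.permCongr_apply]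
      simp only [Equiv.symm_apply_apply, pick]
      rfl
    have h2 : A (pick b φ) = ((∏ j, (Equiv.Perm.sign (φ j).2 : ℤ) : ℤ) : K) • A y := by
      rw [h1, AlternatingMap.map_perm, Equiv.Perm.sign_permCongr, Equiv.Perm.sign_prodCongrRight,
        Units.smul_def, ← Int.cast_smul_eq_zsmul K, Units.coe_prod]
    have h3 : ((∏ j, (Equiv.Perm.sign (φ j).2 : ℤ) : ℤ) : K) *
        ((∏ j, (Equiv.Perm.sign (φ j).2 : ℤ) : ℤ) : K) = 1 := by
      rw [← Int.cast_mul, ← Units.coe_prod, ← Units.val_mul, Int.units_mul_self, Units.val_one,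
        Int.cast_one]
    rw [h2, smul_smul, h3, one_smul]
    split_ifs with hinj
    · let π : Equiv.Perm (Fin N) :=
        Equiv.ofBijective _ (Finite.injective_iff_bijective.1 hinj)
      have h4 : y = ord b ∘ ((rr N).permCongr (Equiv.prodCongrLeft fun _ => π)) := by
        funext m
        rw [Function.comp_apply, hy, Equiv.permCongr_apply]
        simp only [ord, Equiv.symm_apply_apply]
        rfl
      rw [h4, AlternatingMap.map_perm, Equiv.Perm.sign_permCongr, Equiv.Perm.sign_prodCongrLeft,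
        Fin.prod_univ_two, Int.units_mul_self, one_smul]
    · obtain ⟨i, j, hij, hne⟩ : ∃ i j, (φ i).1 = (φ j).1 ∧ i ≠ j := by
        by_contra hcon
        push Not at hcon
        exact hinj fun i j h => hcon i j h
      refine A.map_eq_zero_of_eq y (i := rr N (i, 0)) (j := rr N (j, 0)) ?_ ?_
      · simp only [hy, Equiv.symm_apply_apply, hij]
      · intro h
        have := (rr N).injective h
        exact hne (congrArg Prod.fst this)

/-- a product over pairs -/
lemma prod_pairs {R : Type*} [Monoid R] (y : Fin (2 * N) → R) :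
    (List.ofFn fun j : Fin N => y (rr N (j, 0)) * y (rr N (j, 1))).prod = (List.ofFn y).prod := by
  rw [List.ofFn_mul', List.prod_flatten, List.map_ofFn]
  congr 2
  funext j
  rw [Function.comp_apply, List.ofFn_succ, List.ofFn_succ, List.ofFn_zero, List.prod_cons,
    List.prod_cons, List.prod_nil, mul_one]
  congr 2 <;> apply Fin.ext <;> rw [rr_val] <;> simp <;> ring

end Comb

end Pool.Agent.Q250.OD
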