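import Pool.Agent.Q250.OD.Alg
import Pool.Agent.Q8.KC.Det
import Pool.Agent.TH133.PW.Ev

/-!
# Determinants of odd classes
-/

set_option autoImplicit false

open CategoryTheory AlgebraicGeometry

universe u v

namespace Pool.Agent.Q250.OD

open Module
open Pool.Agent.H914 Pool.Agent.H914.VarClass Pool.Agent.H914.VarClass.Obj
  Pool.Agent.H914.WeilCohomology Pool.Agent.Y133.Half Pool.Agent.Q55.Det Pool.Agent.Q8.KC

variable {k : Type u} [Field k] {𝒱 : VarClass k} {ops : CycleOps 𝒱}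
  {W : WeilCohomology.{u, v} ops} {X Y Z : 𝒱.Obj}

lemma tens_PH {a : ℕ} : ∀ {n : ℕ} {x : Fin (n + 1) → W.H X}, (∀ j, x j ∈ PH W X a) →
    tens W n x ∈ PH W (pw X n) ((n + 1) * a)
  | 0, x, hx => by rw [tens_zero, zero_add, one_mul]; exact hx 0
  | n + 1, x, hx => by
    rw [tens_succ, show (n + 1 + 1) * a = (n + 1) * a + a by ring]
    exact xp_mem (tens_PH fun j => hx _) (hx _)

/-- The action of a permutation of the factors on an external product of odd classes. -/
lemma map_tau_odd {n : ℕ} (σ : Equiv.Perm (Fin (n + 1))) {x : Fin (n + 1) → W.H X}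
    (hx : ∀ j, x j ∈ PH W X 1) :
    W.map (tau X n σ) (tens W n (x ∘ σ)) = (chi 1 σ : W.K) • tens W n x := by
  rw [tens_eq, tens_eq, map_list_prod, List.map_ofFn]
  have h1 : (W.map (tau X n σ)) ∘ (fun i => W.map (prj X n i) ((x ∘ σ) i)) =
      (fun i => W.map (prj X n i) (x i)) ∘ σ := by
    funext i
    rw [Function.comp_apply, Function.comp_apply, ← W.map_comp, tau_prj]
    rfl
  rw [h1]
  refine ofFn_perm 1 σ _ fun j l _ => ?_
  rw [PH.comm (PH.map _ (hx j)) (PH.map _ (hx l)), mul_one]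

/-- The symmetrization of an external product of odd classes is a determinant. -/
lemma alt_tens {n : ℕ} {x : Fin (n + 1) → W.H X} (hx : ∀ j, x j ∈ PH W X 1) :
    ∑ σ : Equiv.Perm (Fin (n + 1)), W.map (tau X n σ) (tens W n x) = wedge W n x := by
  rw [wedge, ← Equiv.sum_comp (Equiv.inv (Equiv.Perm (Fin (n + 1))))]
  refine Finset.sum_congr rfl fun σ _ => ?_
  have h1 : x = (x ∘ σ) ∘ (σ⁻¹ : Equiv.Perm (Fin (n + 1))) := by
    funext i
    simp
  rw [Equiv.inv_apply]
  conv_lhs => rw [h1]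
  rw [map_tau_odd (x := x ∘ σ) σ⁻¹ fun j => hx _, chi, pow_one, Equiv.Perm.sign_inv]

lemma pair_tens_PH (X : 𝒱.Obj) (W : WeilCohomology.{u, v} ops) (a b : ℕ) : ∀ n : ℕ,
    ∃ s : W.K, s ≠ 0 ∧ ∀ x y : Fin (n + 1) → W.H X, (∀ j, x j ∈ PH W X a) →
      (∀ j, y j ∈ PH W X b) →
      W.tr _ (tens W n x * tens W n y) = s * ∏ j, W.tr X (x j * y j)
  | 0 => ⟨1, one_ne_zero, fun x y _ _ => by
    rw [tens_zero, tens_zero, one_mul, Fin.prod_univ_succ, Fin.prod_univ_zero, mul_one]
    rfl⟩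
  | n + 1 => by
    obtain ⟨s, hs, h⟩ := pair_tens_PH X W a b n
    refine ⟨(-1) ^ (a * ((n + 1) * b)) * s,
      mul_ne_zero (pow_ne_zero _ (neg_ne_zero.2 one_ne_zero)) hs, fun x y hx hy => ?_⟩
    have h1 : W.tr (pw X (n + 1)) (tens W (n + 1) x * tens W (n + 1) y) =
        W.tr ((pw X n).prod X) (xp W (tens W n fun j => x j.castSucc) (x (Fin.last (n + 1))) *
          xp W (tens W n fun j => y j.castSucc) (y (Fin.last (n + 1)))) := rfl
    rw [h1, xp_mul _ _ _ _ (hx _) (tens_PH fun j => hy _),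
      map_smul, smul_eq_mul, Fin.prod_univ_castSucc, tr_xp, h _ _ (fun j => hx _) (fun j => hy _)]
    ring

/-- The contraction of the square of the determinant of odd classes. -/
theorem contract_odd (S : Sys W) {n : ℕ} {f : Fin (n + 1) → W.H X}
    (hf : ∀ j, f j ∈ PH W X 1) (hd : detPair W n f f ∈ S.C (dblPw X n)) :
    ∃ (c : W.H (X.prod X)) (s : W.K), c ∈ S.C (X.prod X) ∧ s ≠ 0 ∧ c = s •
      ∑ σ : Equiv.Perm (Fin (n + 1)), ∑ τ : Equiv.Perm (Fin (n + 1)),
        ccoef (gram₂ W f f) σ τ • xp W (f (σ (Fin.last n))) (f (τ (Fin.last n))) := by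
  cases n with
  | zero =>
    refine ⟨detPair W 0 f f, 1, hd, one_ne_zero, ?_⟩
    rw [one_smul]
    have h2 : detPair W 0 f f =
      xp W (X := X) (Y := X) (∑ σ : Equiv.Perm (Fin 1), ((Equiv.Perm.sign σ : ℤ) : W.K) •
        f (σ (Fin.last 0))) (∑ σ : Equiv.Perm (Fin 1), ((Equiv.Perm.sign σ : ℤ) : W.K) •
        f (σ (Fin.last 0))) := rfl
    rw [h2, xp_sum_sum]
    refine Finset.sum_congr rfl fun σ _ => Finset.sum_congr rfl fun τ _ => ?_
    rw [ccoef, Fin.prod_univ_zero, mul_one]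
  | succ m =>
    obtain ⟨s, hs, hpair⟩ := pair_tens_PH X W 1 1 m
    have h0 : detPair W (m + 1) f f =
        xp W (X := (pw X m).prod X) (Y := (pw X m).prod X)
        (∑ σ : Equiv.Perm (Fin (m + 2)), ((Equiv.Perm.sign σ : ℤ) : W.K) •
          xp W (tens W m fun j => f (σ j.castSucc)) (f (σ (Fin.last (m + 1)))))
        (∑ τ : Equiv.Perm (Fin (m + 2)), ((Equiv.Perm.sign τ : ℤ) : W.K) •
          xp W (tens W m fun j => f (τ j.castSucc)) (f (τ (Fin.last (m + 1))))) := rfl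
    refine ⟨W.push (snd (pw X m) (X.prod X)) (W.map (fst (pw X m) (X.prod X)) 1 *
      W.map (iota (pw X m) X) (detPair W (m + 1) f f)),
      (-1) ^ (1 * ((m + 1) * 1)) * s,
      S.push _ (S.mul (S.map _ (S.one _)) (S.map _ hd)),
      mul_ne_zero (pow_ne_zero _ (neg_ne_zero.2 one_ne_zero)) hs, ?_⟩
    rw [h0, xp_sum_sum, map_sum, Finset.mul_sum, map_sum, Finset.smul_sum]
    refine Finset.sum_congr rfl fun σ _ => ?_
    rw [map_sum, Finset.mul_sum, map_sum, Finset.smul_sum]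
    refine Finset.sum_congr rfl fun τ _ => ?_
    rw [map_smul, map_iota _ _ _ _ (hf _) (tens_PH fun j => hf _),
      mul_smul_comm, mul_smul_comm, map_smul, map_smul, push_iota, one_mul, one_mul]
    rw [hpair _ _ (fun j => hf _) (fun j => hf _), smul_smul, smul_smul, smul_smul, ccoef]
    congr 1
    simp only [gram₂]
    ring

/-- The operator given by the contraction. -/
theorem corr_contract_odd {n : ℕ} {f : Fin (n + 1) → W.H X}
    (hf : ∀ j, f j ∈ PH W X 1) (hG : (gram₂ W f f).det ≠ 0) {c : W.H (X.prod X)}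
    {s : W.K} (hs : s ≠ 0) (hc : c = s •
      ∑ σ : Equiv.Perm (Fin (n + 1)), ∑ τ : Equiv.Perm (Fin (n + 1)),
        ccoef (gram₂ W f f) σ τ • xp W (f (σ (Fin.last n))) (f (τ (Fin.last n)))) :
    (∃ κ : W.K, κ ≠ 0 ∧ ∀ m, W.corr c (f m) = κ • f m) ∧
      ∀ x ∈ PH W X 0, W.corr c x = 0 := by
  have h1 : ∀ d, ∀ x ∈ PH W X d, W.corr c x = s • ∑ σ : Equiv.Perm (Fin (n + 1)),
      ∑ τ : Equiv.Perm (Fin (n + 1)), (ccoef (gram₂ W f f) σ τ * ((-1) ^ (1 * d) *
        W.tr X (f (σ (Fin.last n)) * x))) • f (τ (Fin.last n)) := by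
    intro d x hx
    have h2 : W.corr c x = corrL W X X c x := rfl
    rw [h2, hc, map_smul, LinearMap.smul_apply, map_sum, LinearMap.sum_apply]
    congr 1
    refine Finset.sum_congr rfl fun σ _ => ?_
    rw [map_sum, LinearMap.sum_apply]
    refine Finset.sum_congr rfl fun τ _ => ?_
    rw [map_smul, LinearMap.smul_apply]
    have h3 : corrL W X X (xp W (f (σ (Fin.last n))) (f (τ (Fin.last n)))) x =
        W.corr (xp W (f (σ (Fin.last n))) (f (τ (Fin.last n)))) x := rfl
    rw [h3, corr_xp _ (hf _) hx, smul_smul]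
  constructor
  · set N : ℕ := (Finset.univ.filter fun τ : Equiv.Perm (Fin (n + 1)) =>
      τ (Fin.last n) = Fin.last n).card with hN
    have hN0 : N ≠ 0 := by
      rw [hN, Finset.card_ne_zero]
      exact ⟨1, Finset.mem_filter.2 ⟨Finset.mem_univ _, rfl⟩⟩
    refine ⟨s * ((-1) ^ (1 * 1) * ((gram₂ W f f).det * N)), ?_, fun m => ?_⟩
    · refine mul_ne_zero hs (mul_ne_zero (pow_ne_zero _ (neg_ne_zero.2 one_ne_zero))
        (mul_ne_zero hG ?_))
      exact_mod_cast hN0
    · rw [h1 _ _ (hf m), Finset.sum_comm, mul_smul]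
      congr 1
      have h4 : ∀ τ : Equiv.Perm (Fin (n + 1)), ∑ σ : Equiv.Perm (Fin (n + 1)),
          (ccoef (gram₂ W f f) σ τ * ((-1) ^ (1 * 1) *
            W.tr X (f (σ (Fin.last n)) * f m))) • f (τ (Fin.last n)) =
          if τ (Fin.last n) = m then ((-1) ^ (1 * 1) * (gram₂ W f f).det) • f m
            else 0 := by
        intro τ
        rw [← Finset.sum_smul]
        have h5 : ∑ σ : Equiv.Perm (Fin (n + 1)), ccoef (gram₂ W f f) σ τ *
            ((-1) ^ (1 * 1) * W.tr X (f (σ (Fin.last n)) * f m)) =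
            ((-1) ^ (1 * 1) * ((Equiv.Perm.sign τ : ℤ) : W.K)) *
            ∑ σ : Equiv.Perm (Fin (n + 1)), ((Equiv.Perm.sign σ : ℤ) : W.K) *
              ((∏ j : Fin n, gram₂ W f f (σ j.castSucc) (τ j.castSucc)) *
                gram₂ W f f (σ (Fin.last n)) m) := by
          rw [Finset.mul_sum]
          refine Finset.sum_congr rfl fun σ _ => ?_
          have h6 : W.tr X (f (σ (Fin.last n)) * f m) =
              gram₂ W f f (σ (Fin.last n)) m := rfl
          rw [h6, ccoef]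
          ring
        rw [h5, sum_sign_col]
        split_ifs with h
        · rw [h]
          congr 1
          have h7 : ((Equiv.Perm.sign τ : ℤ) : W.K) * ((Equiv.Perm.sign τ : ℤ) : W.K) = 1 := by
            rcases Int.units_eq_one_or (Equiv.Perm.sign τ) with h | h <;> rw [h] <;> norm_num
          calc (-1) ^ (1 * 1) * ((Equiv.Perm.sign τ : ℤ) : W.K) *
                (((Equiv.Perm.sign τ : ℤ) : W.K) * (gram₂ W f f).det)
              = (-1) ^ (1 * 1) * (((Equiv.Perm.sign τ : ℤ) : W.K) *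
                ((Equiv.Perm.sign τ : ℤ) : W.K)) * (gram₂ W f f).det := by ring
            _ = _ := by rw [h7, mul_one]
        · rw [mul_zero, zero_smul]
      rw [Finset.sum_congr rfl fun τ _ => h4 τ, ← Finset.sum_filter, Finset.sum_const,
        card_last m, ← hN, ← Nat.cast_smul_eq_nsmul W.K, smul_smul]
      congr 1
      ring
  · intro x hx
    rw [h1 0 x hx, Finset.sum_eq_zero, smul_zero]
    intro σ _
    refine Finset.sum_eq_zero fun τ _ => ?_
    rw [PH.tr_odd (PH.mul (hf _) hx) (by norm_num), mul_zero, mul_zero, zero_smul]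

/-- Poincare duality for the odd classes. -/
lemma odd_nondeg {x : W.H X} (hx : x ∈ PH W X 1) (h : ∀ y ∈ PH W X 1, W.tr X (x * y) = 0) :
    x = 0 := by
  apply W.nondeg
  intro y
  refine gr_induction (W.isInternal X) (p := fun y => W.tr X (x * y) = 0) ?_ ?_ y
  · intro i y hy
    rcases Nat.mod_two_eq_zero_or_one i with hi | hi
    · exact PH.tr_odd (PH.mul hx (PH.of' (b := 0) hi hy)) (by norm_num)
    · exact h y (PH.of' (b := 1) hi hy)
  · intro a b ha hb
    rw [mul_add, map_add, ha, hb, add_zero]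

lemma basis_PH {n : ℕ} (e : Basis (Fin n) W.K (PH W X 1)) {y : W.H X}
    (hy : y ∈ PH W X 1) : ∃ a : Fin n → W.K, y = ∑ j, a j • (e j : W.H X) := by
  refine ⟨fun j => e.repr ⟨y, hy⟩ j, ?_⟩
  have h4 := congrArg (Subtype.val) (e.sum_repr ⟨y, hy⟩)
  refine h4.symm.trans ?_
  rw [AddSubmonoidClass.coe_finsetSum]
  rfl

lemma gram_odd {n : ℕ} (e : Basis (Fin (n + 1)) W.K (PH W X 1)) :
    (gram₂ W (fun j => (e j : W.H X)) fun j => (e j : W.H X)).det ≠ 0 := by
  intro h0
  obtain ⟨v, hv, hv0⟩ := Matrix.exists_vecMul_eq_zero_iff.2 h0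
  apply hv
  have h1 : (∑ k, v k • (e k : W.H X)) = 0 := by
    refine odd_nondeg (Submodule.sum_mem _ fun k _ => Submodule.smul_mem _ _ (e k).2)
      fun b hb => ?_
    obtain ⟨a, rfl⟩ := basis_PH e hb
    rw [Finset.mul_sum, map_sum]
    refine Finset.sum_eq_zero fun l _ => ?_
    have h2 := congrFun hv0 l
    rw [Matrix.vecMul, dotProduct, Pi.zero_apply] at h2
    rw [mul_smul_comm, map_smul, Finset.sum_mul, map_sum]
    have h3 : ∑ x, W.tr X (v x • (e x : W.H X) * (e l : W.H X)) = 0 := by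
      rw [← h2]
      refine Finset.sum_congr rfl fun k _ => ?_
      rw [smul_mul_assoc, map_smul, smul_eq_mul]
      rfl
    rw [h3, smul_zero]
  have h2 : ∑ k, v k • e k = 0 := by
    apply Subtype.ext
    rw [AddSubmonoidClass.coe_finsetSum]
    exact h1
  funext k
  exact Fintype.linearIndependent_iff.1 e.linearIndependent v h2 k

open Pool.Agent.H447

/-- **From the determinant to the even projector.** -/
theorem even_of_det (S : Sys W) {n : ℕ} (e : Basis (Fin (n + 1)) W.K (PH W X 1))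
    (hd : wedge W n (fun j => (e j : W.H X)) ∈ S.C (pw X n)) :
    ∃ c ∈ S.C (X.prod X), IsEvenProj (W.gr X) (W.corr c) := by
  obtain ⟨c, s, hc, hs, hcs⟩ := contract_odd S (fun j => (e j).2)
    (S.mul (S.map (fst (pw X n) (pw X n)) hd) (S.map (snd (pw X n) (pw X n)) hd))
  obtain ⟨⟨κ, hκ, h1⟩, h2⟩ := corr_contract_odd (fun j => (e j).2) (gram_odd e) hs hcs
  refine ⟨W.push (diag X) (1 : W.H X) - κ⁻¹ • c, Submodule.sub_mem _ Sys.diag_mem
    (Submodule.smul_mem _ _ hc), ?_⟩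
  intro j x hx
  have h3 : W.corr (W.push (diag X) (1 : W.H X) - κ⁻¹ • c) x = x - κ⁻¹ • W.corr c x := by
    have h4 : W.corr (W.push (diag X) (1 : W.H X) - κ⁻¹ • c) =
        W.corr (W.push (diag X) (1 : W.H X)) - κ⁻¹ • W.corr c := by
      have h5 : ∀ d, W.corr d = corrL W X X d := fun _ => rfl
      rw [h5, h5, h5, map_sub, map_smul]
    rw [h4, Sys.corr_diag_one]
    rfl
  rw [h3]
  split_ifs with hj
  · rw [h2 x (PH.of' (b := 0) (Nat.even_iff.1 hj) hx), smul_zero, sub_zero]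
  · obtain ⟨a, rfl⟩ := basis_PH e (PH.of' (b := 1) (Nat.odd_iff.1 (Nat.not_even_iff_odd.1 hj)) hx)
    rw [map_sum, Finset.smul_sum, ← Finset.sum_sub_distrib]
    refine Finset.sum_eq_zero fun m _ => ?_
    rw [map_smul, h1, smul_smul, smul_smul, show κ⁻¹ * a m * κ = a m by field_simp, sub_self]

end Pool.Agent.Q250.OD
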