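import Pool.Agent.Q55.Det.Defs
import Pool.Agent.H447R3.SpDefs

/-!
# The determinant of the odd cohomology: definitions
-/

set_option autoImplicit false

open CategoryTheory AlgebraicGeometry

universe u v

namespace Pool.Agent.Q250.OD

open Pool.Agent.H914 Pool.Agent.H914.VarClass Pool.Agent.H914.VarClass.Obj
  Pool.Agent.H914.WeilCohomology Pool.Agent.Y133.Half Pool.Agent.Q55.Det

variable {k : Type u} [Field k] {𝒱 : VarClass k} {ops : CycleOps 𝒱}

/-- The odd cohomology of `X`: the sum of the `H^i(X)` with `i` odd. -/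
def oddPart (W : WeilCohomology.{u, v} ops) (X : 𝒱.Obj) : Submodule W.K (W.H X) :=
  ⨆ (i : ℕ) (_ : Odd i), W.gr X i

/-- The determinant of the odd cohomology of `X` is algebraic: for every basis `e_0, …, e_n` of the
odd cohomology the class `∑ sign(σ) e_σ(0) × ⋯ × e_σ(n)` on `X^(n+1)` is a linear combination, with
coefficients in the coefficient field of the cohomology, of classes of cycles of codimension
`(n + 1) dim X / 2`. -/
def OddDetAlgebraic (W : WeilCohomology.{u, v} ops) (X : 𝒱.Obj) : Prop :=
  ∀ (n : ℕ) (e : Fin (n + 1) → W.H X), IsBasisOf (oddPart W X) e →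
    wedge W n e ∈ spanCycles W (pw X n) (((n + 1) * X.dim / 2 : ℕ) : ℤ)

/-- The determinant line of the odd cohomology of `X` contains the class of a cycle: for every basis
`e_0, …, e_n` of the odd cohomology some multiple `s ≠ 0` of the class
`∑ sign(σ) e_σ(0) × ⋯ × e_σ(n)` on `X^(n+1)` is the class of a cycle, with rational coefficients, of
codimension `(n + 1) dim X / 2`. -/
def OddDetRational (W : WeilCohomology.{u, v} ops) (X : 𝒱.Obj) : Prop :=
  ∀ (n : ℕ) (e : Fin (n + 1) → W.H X), IsBasisOf (oddPart W X) e →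
    ∃ s : W.K, s ≠ 0 ∧ s • wedge W n e ∈ algClasses W (pw X n) ((n + 1) * X.dim / 2)

end Pool.Agent.Q250.OD
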