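import Pool.Agent.Q250.OD.Coh
import Pool.Agent.Q250.OD.Defs

/-!
# The sign conjecture and the determinant of the odd cohomology
-/

set_option autoImplicit false

open CategoryTheory AlgebraicGeometry

universe u v

namespace Pool.Agent.Q250.OD

open Module
open Pool.Agent.H914 Pool.Agent.H914.VarClass Pool.Agent.H914.VarClass.Obj
  Pool.Agent.H914.WeilCohomology Pool.Agent.Y133.Half Pool.Agent.Q55.Det Pool.Agent.Q8.KC
  Pool.Agent.H447

variable {k : Type u} [Field k] {𝒱 : VarClass k} {ops : CycleOps 𝒱}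
  {W : WeilCohomology.{u, v} ops} {X Y Z : 𝒱.Obj}

/-! ### The pairing of odd classes -/

/-- the pairing of odd classes -/
noncomputable def oddForm (W : WeilCohomology.{u, v} ops) (X : 𝒱.Obj) :
    PH W X 1 →ₗ[W.K] PH W X 1 →ₗ[W.K] W.K :=
  LinearMap.mk₂ W.K (fun x y => W.tr X ((x : W.H X) * (y : W.H X)))
    (fun x x' y => by rw [Submodule.coe_add, add_mul, map_add])
    (fun c x y => by rw [Submodule.coe_smul, smul_mul_assoc, map_smul])
    (fun x y y' => by rw [Submodule.coe_add, mul_add, map_add])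
    (fun c x y => by rw [Submodule.coe_smul, mul_smul_comm, map_smul])

lemma oddForm_apply (x y : PH W X 1) : oddForm W X x y = W.tr X ((x : W.H X) * (y : W.H X)) := rfl

lemma oddForm_self (x : PH W X 1) : oddForm W X x x = 0 := by
  have h := PH.comm x.2 x.2
  rw [mul_one, pow_one, neg_smul, one_smul] at h
  have h2 : (2 : W.K) • ((x : W.H X) * (x : W.H X)) = 0 := by
    rw [two_smul]
    nth_rw 1 [h]
    exact neg_add_cancel _
  rw [oddForm_apply, (smul_eq_zero.1 h2).resolve_left two_ne_zero, map_zero]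

lemma oddForm_nondeg (x : PH W X 1) (h : ∀ y, oddForm W X x y = 0) : x = 0 :=
  Subtype.ext (odd_nondeg x.2 fun y hy => h ⟨y, hy⟩)

/-! ### From the even projector to the determinant -/

section Forward

lemma sum_perm_two {M : Type*} [AddCommMonoid M] (F : Equiv.Perm (Fin 2) → M) :
    ∑ s, F s = F 1 + F (Equiv.swap 0 1) := by
  have : (Finset.univ : Finset (Equiv.Perm (Fin 2))) = {1, Equiv.swap 0 1} := by decide
  rw [this, Finset.sum_pair (by decide)]

/-- the sum of the `b_(i,0) × b_(i,1) - b_(i,1) × b_(i,0)` -/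
noncomputable def paired (W : WeilCohomology.{u, v} ops) {X : 𝒱.Obj} {g : ℕ}
    (b : Fin g → Fin 2 → W.H X) : W.H (X.prod X) :=
  ∑ p : Fin g × Equiv.Perm (Fin 2), ((Equiv.Perm.sign p.2 : ℤ) : W.K) •
    xp W (b p.1 (p.2 0)) (b p.1 (p.2 1))

lemma corr_paired {g : ℕ} {b : Fin g → Fin 2 → W.H X} (hb : ∀ i a, b i a ∈ PH W X 1) {l : ℕ}
    {x : W.H X} (hx : x ∈ PH W X l) : W.corr (paired W b) x =
      ∑ i, ((-1 : W.K) ^ (1 * l) * W.tr X (b i 0 * x)) • b i 1 -
      ∑ i, ((-1 : W.K) ^ (1 * l) * W.tr X (b i 1 * x)) • b i 0 := by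
  have h2 : W.corr (paired W b) x = corrL W X X (paired W b) x := rfl
  rw [h2, paired, map_sum, LinearMap.sum_apply, Fintype.sum_prod_type, ← Finset.sum_sub_distrib]
  refine Finset.sum_congr rfl fun i _ => ?_
  rw [sum_perm_two]
  have h3 : ∀ c : W.H (X.prod X), corrL W X X c x = W.corr c x := fun _ => rfl
  rw [map_smul, map_smul, LinearMap.smul_apply, LinearMap.smul_apply, h3, h3,
    corr_xp _ (hb _ _) hx, corr_xp _ (hb _ _) hx]
  simp only [Equiv.Perm.sign_one, Equiv.Perm.coe_one, id_eq, Equiv.swap_apply_left,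
    Equiv.swap_apply_right]
  rw [Equiv.Perm.sign_swap (by decide)]
  simp only [Units.val_one, Int.cast_one, one_smul, Units.val_neg, Int.cast_neg, neg_smul]
  rw [sub_eq_add_neg]

lemma paired_eq {g : ℕ} {b : Fin g → Fin 2 → PH W X 1} (hb : Pairs (oddForm W X) g b)
    (hg : finrank W.K (PH W X 1) = 2 * g) {c : W.H (X.prod X)}
    (hc : IsEvenProj (W.gr X) (W.corr c)) :
    paired W (fun i a => (b i a : W.H X)) = c - W.push (diag X) (1 : W.H X) := by
  set b' : Fin g → Fin 2 → W.H X := fun i a => (b i a : W.H X) with hb'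
  have hbm : ∀ i a, b' i a ∈ PH W X 1 := fun i a => (b i a).2
  rw [← sub_eq_zero]
  apply corr_inj
  apply gr_ext (W.isInternal X)
  intro l x hx
  have e1 : ∀ d : W.H (X.prod X), W.corr d = corrL W X X d := fun _ => rfl
  rw [LinearMap.zero_apply, e1, map_sub, map_sub, LinearMap.sub_apply, LinearMap.sub_apply,
    ← e1, ← e1, ← e1, Sys.corr_diag_one, hc l x hx, LinearMap.id_apply]
  rcases Nat.even_or_odd l with hl | hl
  · rw [if_pos hl, sub_self, sub_zero, corr_paired hbm (PH.of hx)]
    have h0 : ∀ i a, W.tr X (b' i a * x) = 0 := fun i a =>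
      PH.tr_odd (PH.mul (hbm i a) (PH.of' (b := 0) (Nat.even_iff.1 hl) hx)) (by norm_num)
    simp only [h0, mul_zero, zero_smul, Finset.sum_const_zero, sub_zero]
  · rw [if_neg (Nat.not_even_iff_odd.2 hl), zero_sub, sub_neg_eq_add]
    have hx1 : x ∈ PH W X 1 := PH.of' (b := 1) (Nat.odd_iff.1 hl) hx
    -- coordinates of `x`
    have hspan : (⟨x, hx1⟩ : PH W X 1) ∈ Submodule.span W.K
        (Set.range fun p : Fin g × Fin 2 => b p.1 p.2) := by
      have hli := hb.indep oddForm_self
      have h5 : Submodule.span W.K (Set.range fun p : Fin g × Fin 2 => b p.1 p.2) = ⊤ := by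
        apply hli.span_eq_top_of_card_eq_finrank'
        rw [Fintype.card_prod, Fintype.card_fin, Fintype.card_fin, hg, mul_comm]
      rw [h5]
      exact Submodule.mem_top
    have key : ∀ z ∈ Submodule.span W.K (Set.range fun p : Fin g × Fin 2 => b p.1 p.2),
        W.corr (paired W b') (z : W.H X) + (z : W.H X) = 0 := by
      intro z hz
      induction hz using Submodule.span_induction with
      | mem z hz =>
        obtain ⟨⟨j, a⟩, rfl⟩ := hz
        simp only
        rw [corr_paired hbm (b j a).2]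
        have t0 : ∀ i a c, W.tr X ((b i a : W.H X) * (b j c : W.H X)) =
            oddForm W X (b i a) (b j c) := fun _ _ _ => rfl
        simp only [hb']
        have h1 : ∀ i j, oddForm W X (b i 1) (b j 0) = if i = j then -1 else 0 := by
          intro i j
          rw [skew oddForm_self, hb.mix]
          by_cases hij : i = j
          · rw [if_pos hij, if_pos hij.symm]
          · rw [if_neg hij, if_neg (Ne.symm hij), neg_zero]
        fin_cases a
        · simp [t0, hb.zero, h1, ite_smul]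
        · simp [t0, hb.one, hb.mix, ite_smul]
      | zero => rw [Submodule.coe_zero, map_zero, add_zero]
      | add y z _ _ hy hz =>
        rw [Submodule.coe_add, map_add]
        calc _ = (W.corr (paired W b') (y : W.H X) + (y : W.H X)) +
            (W.corr (paired W b') (z : W.H X) + (z : W.H X)) := by abel
          _ = 0 := by rw [hy, hz, add_zero]
      | smul r y _ hy =>
        rw [Submodule.coe_smul, map_smul, ← smul_add, hy, smul_zero]
    exact key _ hspan

/-- the map to the `j`-th pair of factors -/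
noncomputable def pairMap (X : 𝒱.Obj) (g : ℕ) (j : Fin (g + 1)) :
    pw X (2 * g + 1) ⟶ X.prod X :=
  Obj.lift (prj X (2 * g + 1) (rr (g + 1) (j, 0))) (prj X (2 * g + 1) (rr (g + 1) (j, 1)))

lemma map_pairMap (g : ℕ) (j : Fin (g + 1)) (x y : W.H X) :
    W.map (pairMap X g j) (xp W x y) = W.map (prj X (2 * g + 1) (rr (g + 1) (j, 0))) x *
      W.map (prj X (2 * g + 1) (rr (g + 1) (j, 1))) y := by
  rw [xp, map_mul, ← W.map_comp, ← W.map_comp, pairMap, Obj.lift_fst, Obj.lift_snd]

lemma expand {g : ℕ} (b : Fin (g + 1) → Fin 2 → W.H X) :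
    (List.ofFn fun j : Fin (g + 1) => W.map (pairMap X g j) (paired W b)).prod =
      ∑ φ : Fin (g + 1) → Fin (g + 1) × Equiv.Perm (Fin 2),
        ((∏ j, (Equiv.Perm.sign (φ j).2 : ℤ) : ℤ) : W.K) • tens W (2 * g + 1) (pick b φ) := by
  have h1 : ∀ j : Fin (g + 1), W.map (pairMap X g j) (paired W b) =
      ∑ p : Fin (g + 1) × Equiv.Perm (Fin 2), ((Equiv.Perm.sign p.2 : ℤ) : W.K) •
        (W.map (prj X (2 * g + 1) (rr (g + 1) (j, 0))) (b p.1 (p.2 0)) *
          W.map (prj X (2 * g + 1) (rr (g + 1) (j, 1))) (b p.1 (p.2 1))) := by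
    intro j
    rw [paired, map_sum]
    refine Finset.sum_congr rfl fun p _ => ?_
    rw [map_smul, map_pairMap]
  rw [List.ofFn_inj.2 (funext h1), ← MultilinearMap.mkPiAlgebraFin_apply (R := W.K),
    MultilinearMap.map_sum]
  refine Finset.sum_congr rfl fun φ _ => ?_
  rw [MultilinearMap.map_smul_univ, MultilinearMap.mkPiAlgebraFin_apply, Int.cast_prod]
  congr 1
  rw [tens_eq]
  refine Eq.trans ?_ (prod_pairs (N := g + 1)
    fun m => W.map (prj X (2 * g + 1) m) (pick b φ m))
  congr 2
  funext j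
  simp only [pick, Equiv.symm_apply_apply]

lemma qs_sum (T : QS W) {ι : Type*} (s : Finset ι) (f : ι → W.H X) (h : ∀ i ∈ s, T.C X (f i)) :
    T.C X (∑ i ∈ s, f i) := by
  classical
  induction s using Finset.induction_on with
  | empty => rw [Finset.sum_empty]; exact T.zero X
  | insert a s ha ih =>
    rw [Finset.sum_insert ha]
    exact T.add (h a (Finset.mem_insert_self _ _)) (ih fun i hi => h i (Finset.mem_insert_of_mem hi))

lemma qs_sub (T : QS W) {c d : W.H X} (hc : T.C X c) (hd : T.C X d) : T.C X (c - d) := by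
  have h := T.add hc (T.smul (-1) hd)
  rwa [Rat.cast_neg, Rat.cast_one, neg_smul, one_smul, ← sub_eq_add_neg] at h

lemma qs_list (T : QS W) (l : List (W.H X)) (h : ∀ x ∈ l, T.C X x) : T.C X l.prod := by
  induction l with
  | nil => rw [List.prod_nil]; exact T.one X
  | cons a l ih =>
    rw [List.prod_cons]
    exact T.mul (h a List.mem_cons_self) (ih fun x hx => h x (List.mem_cons_of_mem _ hx))

lemma gr_list (m : ℕ) (l : List (W.H X)) (h : ∀ x ∈ l, x ∈ W.gr X m) :
    l.prod ∈ W.gr X (l.length * m) := by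
  induction l with
  | nil => rw [List.prod_nil, List.length_nil, zero_mul]; exact W.one_mem X
  | cons a l ih =>
    rw [List.prod_cons, List.length_cons, add_mul, one_mul, add_comm]
    exact W.mul_mem (h a List.mem_cons_self) (ih fun x hx => h x (List.mem_cons_of_mem _ hx))

/-- The dimension of the odd cohomology is even. -/
theorem exists_half {n : ℕ} (e : Basis (Fin (n + 1)) W.K (PH W X 1)) : ∃ g, n = 2 * g + 1 := by
  obtain ⟨g, b, hb, hg⟩ := exists_symp (B := oddForm W X) oddForm_self oddForm_nondeg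
  have hn : finrank W.K (PH W X 1) = n + 1 := by
    rw [finrank_eq_card_basis e, Fintype.card_fin]
  exact ⟨g - 1, by omega⟩

/-- The class on `X^(2g+2)` obtained by symmetrization from a class on `X × X`. -/
noncomputable def symPow (W : WeilCohomology.{u, v} ops) {X : 𝒱.Obj} (g : ℕ)
    (c : W.H (X.prod X)) : W.H (pw X (2 * g + 1)) :=
  ∑ σ : Equiv.Perm (Fin (2 * g + 1 + 1)), W.map (tau X (2 * g + 1) σ)
    (List.ofFn fun j : Fin (g + 1) => W.map (pairMap X g j) c).prod

lemma symPow_mem (T : QS W) {g : ℕ} {c : W.H (X.prod X)} (hc : T.C (X.prod X) c) :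
    T.C (pw X (2 * g + 1)) (symPow W g c) := by
  refine qs_sum T _ _ fun σ _ => T.map _ (qs_list T _ fun x hx => ?_)
  rw [List.mem_ofFn] at hx
  obtain ⟨j, rfl⟩ := hx
  exact T.map _ hc

lemma symPow_gr {g m : ℕ} {c : W.H (X.prod X)} (hc : c ∈ W.gr (X.prod X) m) :
    symPow W g c ∈ W.gr (pw X (2 * g + 1)) ((g + 1) * m) := by
  refine Submodule.sum_mem _ fun σ _ => W.map_mem _ ?_
  have h := gr_list (W := W) m (List.ofFn fun j : Fin (g + 1) => W.map (pairMap X g j) c) (by
    intro x hx
    rw [List.mem_ofFn] at hx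
    obtain ⟨j, rfl⟩ := hx
    exact W.map_mem _ hc)
  rwa [List.length_ofFn] at h

/-- **From the even projector to the determinant.** -/
theorem det_eq {c : W.H (X.prod X)} (hc : IsEvenProj (W.gr X) (W.corr c)) {g' : ℕ}
    (e : Basis (Fin (2 * g' + 1 + 1)) W.K (PH W X 1)) :
    ∃ s : W.K, s ≠ 0 ∧ s • wedge W (2 * g' + 1) (fun j => (e j : W.H X)) =
      symPow W g' (c - W.push (diag X) (1 : W.H X)) := by
  obtain ⟨g, b, hb, hg⟩ := exists_symp (B := oddForm W X) oddForm_self oddForm_nondeg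
  have hn : finrank W.K (PH W X 1) = 2 * g' + 1 + 1 := by
    rw [finrank_eq_card_basis e, Fintype.card_fin]
  obtain rfl : g = g' + 1 := by omega
  set b' : Fin (g' + 1) → Fin 2 → W.H X := fun i a => (b i a : W.H X) with hb'
  have hpe : paired W b' = c - W.push (diag X) (1 : W.H X) := paired_eq hb hg hc
  have h5 : symPow W g' (paired W b') =
      ∑ φ : Fin (g' + 1) → Fin (g' + 1) × Equiv.Perm (Fin 2),
        ((∏ j, (Equiv.Perm.sign (φ j).2 : ℤ) : ℤ) : W.K) •
          wedge W (2 * g' + 1) (pick b' φ) := by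
    rw [symPow]
    have h6 : ∀ σ : Equiv.Perm (Fin (2 * g' + 1 + 1)), W.map (tau X (2 * g' + 1) σ)
        (List.ofFn fun j : Fin (g' + 1) => W.map (pairMap X g' j) (paired W b')).prod =
        ∑ φ : Fin (g' + 1) → Fin (g' + 1) × Equiv.Perm (Fin 2),
        ((∏ j, (Equiv.Perm.sign (φ j).2 : ℤ) : ℤ) : W.K) •
          W.map (tau X (2 * g' + 1) σ) (tens W (2 * g' + 1) (pick b' φ)) := by
      intro σ
      rw [expand, map_sum]
      refine Finset.sum_congr rfl fun φ _ => ?_
      rw [map_smul]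
    rw [Finset.sum_congr rfl fun σ _ => h6 σ, Finset.sum_comm]
    refine Finset.sum_congr rfl fun φ _ => ?_
    rw [← Finset.smul_sum, alt_tens]
    intro j
    exact (b _ _).2
  obtain ⟨m, hm, hsum⟩ := sum_pick (K := W.K) (N := g' + 1) (wedgeA W X (2 * g' + 1)) b'
  have h7 : ∑ φ : Fin (g' + 1) → Fin (g' + 1) × Equiv.Perm (Fin 2),
        ((∏ j, (Equiv.Perm.sign (φ j).2 : ℤ) : ℤ) : W.K) •
          wedge W (2 * g' + 1) (pick b' φ) = (m : W.K) • wedge W (2 * g' + 1) (ord b') := by
    rw [← wedgeA_apply (2 * g' + 1) (ord b')]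
    refine Eq.trans ?_ hsum
    refine Finset.sum_congr rfl fun φ _ => ?_
    rw [← wedgeA_apply]
  have hm0 : (m : W.K) ≠ 0 := by exact_mod_cast hm
  have hli : LinearIndependent W.K (ord b : Fin (2 * g' + 1 + 1) → PH W X 1) :=
    (hb.indep oddForm_self).comp _ (rr (g' + 1)).symm.injective
  let eo : Basis (Fin (2 * g' + 1 + 1)) W.K (PH W X 1) :=
    basisOfLinearIndependentOfCardEqFinrank hli (by rw [Fintype.card_fin, hn])
  have heo : ∀ j, eo j = (ord b : Fin (2 * g' + 1 + 1) → PH W X 1) j := fun j => by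
    rw [coe_basisOfLinearIndependentOfCardEqFinrank]
  obtain ⟨t, ht0, ht⟩ := wedge_basis eo e
  have h9 : (fun j => (eo j : W.H X)) = ord b' := by
    funext j
    rw [heo]
    rfl
  refine ⟨(m : W.K) * t⁻¹, mul_ne_zero hm0 (inv_ne_zero ht0), ?_⟩
  rw [← hpe, h5, h7, ht, smul_smul, mul_assoc, inv_mul_cancel₀ ht0, mul_one, h9]

end Forward

end Pool.Agent.Q250.OD
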