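import Pool.Agent.Q250.OD.Main

/-!
# The sign conjecture and the determinant of the odd cohomology: the theorems
-/

set_option autoImplicit false

open CategoryTheory AlgebraicGeometry

universe u v

namespace Pool.Agent.Q250.OD

open Module
open Pool.Agent.H914 Pool.Agent.H914.VarClass Pool.Agent.H914.VarClass.Obj
  Pool.Agent.H914.WeilCohomology Pool.Agent.Y133.Half Pool.Agent.Q55.Det Pool.Agent.Q8.KC
  Pool.Agent.H447 Pool.Agent.H281R3.HT Pool.Agent.W458.MF Pool.Agent.W536.RR Pool.Agent.TH133.PW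
  Pool.Agent.TH122.Km

variable {k : Type u} [Field k] {𝒱 : VarClass k} {ops : CycleOps 𝒱}
  {W : WeilCohomology.{u, v} ops} {X Y Z : 𝒱.Obj}

lemma oddPart_eq : oddPart W X = PH W X 1 := by
  unfold oddPart PH
  refine iSup_congr fun i => ?_
  exact iSup_congr_Prop Nat.odd_iff fun _ => rfl

/-- The even projector and linear combinations of cycles. -/
theorem sign_of_lin {c : W.H (X.prod X)} (hc : c ∈ (algSys W).C (X.prod X))
    (h : IsEvenProj (W.gr X) (W.corr c)) : SignStd W X := by
  apply signStd_of_span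
  refine ⟨W.corr (H914.proj (W.isInternal (X.prod X)) (2 * X.dim) c), ?_, ?_⟩
  · have hc' : c ∈ algSpan W (X.prod X) := hc
    refine algSpan_induction (p := fun c => W.corr (H914.proj (W.isInternal (X.prod X))
      (2 * X.dim) c) ∈ Submodule.span W.K (cycleOperators W X X.dim)) ?_ ?_ ?_ ?_ hc'
    · rw [map_zero, corr_zero]; exact Submodule.zero_mem _
    · intro a b ha hb; rw [map_add, corr_add]; exact Submodule.add_mem _ ha hb
    · intro t a ha; rw [map_smul, corr_smul]; exact Submodule.smul_mem _ _ ha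
    · intro j z hz
      by_cases hj : j = X.dim
      · subst hj
        rw [proj_same _ (W.cl_mem hz)]
        exact Submodule.subset_span ⟨z, hz, rfl⟩
      · rw [proj_ne _ (W.cl_mem hz) (by omega), corr_zero]
        exact Submodule.zero_mem _
  · intro l x hx
    rw [← proj_corr c hx, h l x hx]
    split_ifs with hl
    · exact proj_same _ hx
    · exact map_zero _

lemma diag_gr : W.push (diag X) (1 : W.H X) ∈ W.gr (X.prod X) (2 * X.dim) := by
  have h1 := W.push_mem (diag X) (W.one_mem X)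
  have e : ((0 : ℕ) : ℤ) + 2 * (((X.prod X).dim : ℤ) - X.dim) = ((2 * X.dim : ℕ) : ℤ) := by
    rw [dim_prod]; push_cast; ring
  rwa [e, grZ_natCast] at h1

/-- The dimension of the odd cohomology is even. -/
theorem even_card {n : ℕ} {e : Fin (n + 1) → W.H X} (he : IsBasisOf (oddPart W X) e) :
    Even (n + 1) := by
  rw [oddPart_eq] at he
  obtain ⟨b, -⟩ := exists_basis he
  obtain ⟨g, rfl⟩ := exists_half b
  exact ⟨g + 1, by ring⟩

/-- **The sign conjecture gives a cycle in the determinant line.** -/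
theorem det_of_sign (h : SignStd W X) {n : ℕ} {e : Fin (n + 1) → W.H X}
    (he : IsBasisOf (oddPart W X) e) :
    ∃ s : W.K, s ≠ 0 ∧ s • wedge W n e ∈ algClasses W (pw X n) ((n + 1) * X.dim / 2) := by
  rw [oddPart_eq] at he
  obtain ⟨b, hb⟩ := exists_basis he
  obtain rfl : e = fun j => (b j : W.H X) := funext fun j => (hb j).symm
  obtain ⟨g, rfl⟩ := exists_half b
  obtain ⟨P, hP, hPe⟩ := h
  obtain ⟨s, hs, hsw⟩ := det_eq hPe b
  refine ⟨s, hs, ?_⟩
  rw [hsw, show (2 * g + 1 + 1) * X.dim / 2 = (g + 1) * X.dim by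
    rw [show (2 * g + 1 + 1) * X.dim = 2 * ((g + 1) * X.dim) by ring]; omega]
  have h1 : Pool.Agent.W552.AS W (pw X (2 * g + 1))
      (symPow W g (W.cl (X.prod X) P - W.push (diag X) (1 : W.H X))) :=
    symPow_mem (ratS W) (qs_sub (ratS W) (Pool.Agent.W552.AS.of ⟨P, hP, rfl⟩)
      ((ratS W).push _ ((ratS W).one X)))
  refine h1.alg ?_
  have h2 := symPow_gr (g := g) (Submodule.sub_mem _ (W.cl_mem hP) (diag_gr (W := W) (X := X)))
  rwa [show (g + 1) * (2 * X.dim) = 2 * ((g + 1) * X.dim) by ring] at h2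

/-- **The determinant gives the sign conjecture.** -/
theorem sign_of_det (h : OddDetAlgebraic W X) : SignStd W X := by
  by_cases h0 : PH W X 1 = ⊥
  · refine sign_of_lin (c := W.push (diag X) (1 : W.H X)) Sys.diag_mem ?_
    intro j x hx
    rw [Sys.corr_diag_one]
    split_ifs with hj
    · rfl
    · have h1 : x ∈ PH W X 1 := PH.of' (b := 1) (Nat.odd_iff.1 (Nat.not_even_iff_odd.1 hj)) hx
      rw [h0] at h1
      rw [(Submodule.mem_bot _).1 h1, map_zero]
  · have hpos : finrank W.K (PH W X 1) ≠ 0 := fun h1 => h0 (Submodule.finrank_eq_zero.1 h1)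
    obtain ⟨n, hn⟩ : ∃ n, finrank W.K (PH W X 1) = n + 1 :=
      ⟨finrank W.K (PH W X 1) - 1, by omega⟩
    let e : Basis (Fin (n + 1)) W.K (PH W X 1) := finBasisOfFinrankEq W.K (PH W X 1) hn
    obtain ⟨c, hc, hce⟩ := even_of_det (algSys W) e (alg_of_span' (h n _ (by
      rw [oddPart_eq]; exact isBasisOf e)))
    exact sign_of_lin hc hce

/-- **The three conditions.** -/
theorem tfae (W : WeilCohomology.{u, v} ops) (X : 𝒱.Obj) :
    [SignStd W X, OddDetAlgebraic W X, OddDetRational W X].TFAE := by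
  tfae_have 1 → 3 := fun h n e he => det_of_sign h he
  tfae_have 3 → 2 := by
    intro h n e he
    obtain ⟨s, hs, hsw⟩ := h n e he
    obtain ⟨z, hz, hzw⟩ := hsw
    have h1 : s • wedge W n e ∈ spanCycles W (pw X n) (((n + 1) * X.dim / 2 : ℕ) : ℤ) := by
      rw [← hzw]
      exact Submodule.subset_span ⟨_, rfl, z, hz, rfl⟩
    have h2 := Submodule.smul_mem _ s⁻¹ h1
    rwa [inv_smul_smul₀ hs] at h2
  tfae_have 2 → 1 := sign_of_det
  tfae_finish

end Pool.Agent.Q250.OD
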